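import Mathlib
import Pool.Agent.W_35cfd6_h67.Main

set_option autoImplicit false

namespace Pool.Agent.Results.MP_35cfd6_ag.AnticanonicalAlgebra

open IsLocalRing Pool.Agent.W_MP_35cfd6_ag Pool.Agent.UL35

/-- Let `R` be a Noetherian normal local domain of characteristic `p` which is not a field and is
`F`-finite (completeness is not needed). The identity of Q1 holds for `R`, with one pair `I < J` of
ideals with radical `𝔪` for all `e`, if one of the following holds:
* `R` has dimension at most two;
* `R` is not `F`-split;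
* there is a nonzero ideal `𝔞` isomorphic to `Hom_R(F_* R, R)` as a module over `F_* R` (there always
  is one, see `Pool.Agent.UL35.exists_isFDual`, and `𝔞` is isomorphic to `ω^{(1-p)}` if `R` has a
  canonical module `ω`) such that
  - either some reflexive power `𝔞^{(n)}`, `n > 0`, is principal at every nonmaximal prime
    (`R` is `ℚ`-Gorenstein on the punctured spectrum),
  - or the algebra `⊕ 𝔞^{(n)}` is finitely generated on the punctured spectrum. -/
theorem result {p : ℕ} [Fact p.Prime] {R : Type*} [CommRing R] [IsDomain R] [IsLocalRing R]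
    [IsNoetherianRing R] [IsIntegrallyClosed R] [CharP R p] (hR : ¬ IsField R)
    (hF : Module.Finite R (FPush p 1 R))
    (h : ringKrullDim R ≤ 2 ∨ ¬ FSplit p R ∨
      ∃ 𝔞 : Ideal R, 𝔞 ≠ ⊥ ∧ IsFDual p 𝔞 ∧ (QGorPunctured 𝔞 ∨ FGPunctured 𝔞)) :
    ∃ I J : Ideal R, I < J ∧ I.radical = maximalIdeal R ∧ J.radical = maximalIdeal R ∧
      ∀ e : ℕ, (freeRank R (FPush p e R) : ℚ) /
          (Module.finrank (ResidueField R) (FPush p e (ResidueField R)) : ℚ) =
        ((HK p I e : ℚ) - (HK p J e : ℚ)) / (lengthBetween I J : ℚ) :=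
  main hR hF h

end Pool.Agent.Results.MP_35cfd6_ag.AnticanonicalAlgebra
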