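import Mathlib
import Pool.Agent.W_35cfd6_h24.MainNF

set_option autoImplicit false

namespace Pool.Agent.Results.MP_35cfd6_ag.Counterexample

open IsLocalRing Pool.Agent.W_MP_35cfd6_ag

/-- The negated form of Q1: for every odd prime `p` there is a complete local `F`-finite normal
Noetherian domain `R` of characteristic `p`, of dimension more than two (in particular not a field)
and `F`-split, such that for every pair `I < J` of ideals primary to the maximal ideal the equality
`a_e(R) = (HK_I(e) - HK_J(e)) / ℓ(J / I)` fails for at least one `e`. -/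
theorem result (p : ℕ) [Fact p.Prime] (hp : p ≠ 2) :
    ∃ (R : Type) (_ : CommRing R) (_ : IsDomain R) (_ : IsLocalRing R) (_ : IsNoetherianRing R)
      (_ : IsIntegrallyClosed R) (_ : CharP R p),
      IsAdicComplete (maximalIdeal R) R ∧ (frobenius R p).Finite ∧ 2 < ringKrullDim R ∧
      (∃ φ : FPush p 1 R →ₗ[R] R, φ (show FPush p 1 R from (1 : R)) = 1) ∧
      ∀ I J : Ideal R, I < J → I.radical = maximalIdeal R → J.radical = maximalIdeal R →
        ∃ e : ℕ, (freeRank R (FPush p e R) : ℚ) /
            (Module.finrank (ResidueField R) (FPush p e (ResidueField R)) : ℚ) ≠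
          ((HK p I e : ℚ) - (HK p J e : ℚ)) / (lengthBetween I J : ℚ) :=
  Pool.Agent.W_35cfd6_h24.main_nondegenerate p hp

end Pool.Agent.Results.MP_35cfd6_ag.Counterexample
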