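import Mathlib
import Pool.Agent.W_MP_35cfd6_ag.Final

set_option autoImplicit false

namespace Pool.Agent.Results.MP_35cfd6_ag.GradedRings

open IsLocalRing MvPowerSeries Pool.Agent.W_MP_35cfd6_ag

/-- Let `k` be an `F`-finite field of characteristic `p`, and let `R` be a normal local domain that
is not a field and is isomorphic to `k[[X_σ]] / (g_j)`, where the finitely many power series `g_j`
are weighted homogeneous for positive integer weights `w` of the finitely many variables (so `R`
is the completion of a graded `k`-algebra with `R_0 = k`). Then there are ideals `I < J`, primary to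
the maximal ideal, such that the normalised free rank of `F^e_* R` is equal to
`(HK_I(e) - HK_J(e)) / ℓ(J / I)` for every `e`. -/
theorem result {p : ℕ} [Fact p.Prime] {k : Type*} [Field k] [CharP k p]
    (hk : (frobenius k p).Finite) {σ : Type*} [Finite σ] (w : σ → ℕ) (hw : ∀ i, 0 < w i)
    {ι : Type*} [Finite ι] (g : ι → MvPowerSeries σ k) (D : ι → ℕ)
    (hg : ∀ j, (g j).IsWeightedHomogeneous w (D j))
    {R : Type*} [CommRing R] [IsDomain R] [IsIntegrallyClosed R] [IsLocalRing R] [CharP R p]
    (hR : ¬ IsField R) (φ : R ≃+* MvPowerSeries σ k ⧸ Ideal.span (Set.range g)) :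
    ∃ I J : Ideal R, I < J ∧ I.radical = maximalIdeal R ∧ J.radical = maximalIdeal R ∧
      ∀ e : ℕ, (freeRank R (FPush p e R) : ℚ) /
          (Module.finrank (ResidueField R) (FPush p e (ResidueField R)) : ℚ) =
        ((HK p I e : ℚ) - (HK p J e : ℚ)) / (lengthBetween I J : ℚ) := by
  classical
  let π : MvPowerSeries σ k →+* R :=
    (φ.symm : (MvPowerSeries σ k ⧸ Ideal.span (Set.range g)) →+* R).comp (Ideal.Quotient.mk _)
  have hπ : Function.Surjective π := φ.symm.surjective.comp Ideal.Quotient.mk_surjective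
  have hker : RingHom.ker π = Ideal.span (Set.range g) := by
    ext f
    rw [RingHom.mem_ker]
    change φ.symm (Ideal.Quotient.mk _ f) = 0 ↔ _
    rw [map_eq_zero_iff _ φ.symm.injective, Ideal.Quotient.eq_zero_iff_mem]
  have hnoeth : IsNoetherianRing R := isNoetherianRing_of_surjective _ _ π hπ
  have hcomap : (maximalIdeal R).comap π = maximalIdeal (MvPowerSeries σ k) :=
    IsLocalRing.eq_maximalIdeal (Ideal.comap_isMaximal_of_surjective π hπ)
  have hmap : (maximalIdeal (MvPowerSeries σ k)).map π = maximalIdeal R := by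
    rw [← hcomap, Ideal.map_comap_of_surjective π hπ]
  let _ : Algebra k R := (π.comp MvPowerSeries.C).toAlgebra
  have halg : ∀ r : R, ∃ c : k, r - algebraMap k R c ∈ maximalIdeal R := by
    intro r
    obtain ⟨f, rfl⟩ := hπ r
    refine ⟨constantCoeff f, ?_⟩
    change π f - π (MvPowerSeries.C (constantCoeff f)) ∈ _
    rw [← map_sub]
    change f - MvPowerSeries.C (constantCoeff f) ∈ (maximalIdeal R).comap π
    rw [hcomap, mem_maximalIdeal, mem_nonunits_iff, isUnit_iff_constantCoeff]
    simp
  have hfink : ∀ e, Module.Finite k (FPush p e k) := finite_fpush_field hk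
  let ψ : k →+* ResidueField R := (residue R).comp (algebraMap k R)
  have hψ : Function.Surjective ψ := by
    intro x
    obtain ⟨r, rfl⟩ := residue_surjective x
    obtain ⟨c, hc⟩ := halg r
    refine ⟨c, ?_⟩
    change residue R (algebraMap k R c) = residue R r
    rw [← sub_eq_zero, ← map_sub, residue_eq_zero_iff, ← neg_sub]
    exact (maximalIdeal R).neg_mem hc
  -- the bound
  obtain ⟨n, hn0, hn⟩ : ∃ n : ℕ, 0 < n ∧
      ∀ (q : ℕ) (α : σ →₀ ℕ), 0 < q → (∀ j, α j < q) → ∀ i,
        Finsupp.weight w α + D i < q * n := by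
    cases nonempty_fintype σ
    cases nonempty_fintype ι
    refine ⟨∑ i, w i + ∑ i, D i + 1, Nat.succ_pos _, fun q α hq hα i => ?_⟩
    have h1 : Finsupp.weight w α ≤ q * ∑ i, w i := by
      rw [Finsupp.weight_apply, Finsupp.sum_fintype _ _ (fun i => by simp), Finset.mul_sum]
      refine Finset.sum_le_sum fun j _ => ?_
      rw [smul_eq_mul]
      exact Nat.mul_le_mul_right _ (hα j).le
    have h2 : D i ≤ ∑ i, D i := Finset.single_le_sum (fun _ _ => Nat.zero_le _) (Finset.mem_univ i)
    have h3 : ∑ i, D i ≤ q * ∑ i, D i := Nat.le_mul_of_pos_left _ hq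
    have h4 : q * (∑ i, w i + ∑ i, D i + 1) = q * ∑ i, w i + q * ∑ i, D i + q := by ring
    omega
  let Q : Ideal R := (wIdeal k w n).map π
  have hQn : maximalIdeal R ^ n ≤ Q := by
    rw [← hmap, ← Ideal.map_pow]
    exact Ideal.map_mono ((Ideal.pow_right_mono (maximalIdeal_le_wIdeal hw) n).trans (wIdeal_pow n))
  refine identity_of_lift (k := k) halg hR (fun e => ?_) (fun e => ?_) hQn ?_
  · have := hfink e
    exact fpush_finite (Module.finBasis k (FPush p e k)) π hπ
  · exact finite_fpush_of_surjective ψ hψ (hfink e)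
  · intro e φ' r hr
    have := hfink e
    exact lift_functional w hg π hπ hker hn0 hn (Q := Q) rfl φ' r hr

end Pool.Agent.Results.MP_35cfd6_ag.GradedRings
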